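import Pool.Agent.RCM.Stmts

/-!
# Squad RCM, row PHI (helper70): exchanges take place in one flat
-/

set_option autoImplicit false

namespace Pool.Agent.RCM.H70

open Set

universe u

theorem phi (mvb : MvbStmt.{u}) (rch : RchStmt.{u}) (cir : CirStmt.{u}) : PhiStmt.{u} := by
  have h1 : ∀ (E : Type u) (K : Type) [Finite E] [Finite K] (M N : Matroid E)
      (κ : E → K) (s t : ℕ) (P : Set E) (X : Set K) (T : Set E), Col M N κ s → Mx M N κ t →
      St M N κ P X t T → ∀ x, κ x ∉ κ '' T → κ x ∉ X → x ∉ M.closure (T ∪ P) →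
        x ∈ Ph M N κ P X T := by
    intro E K _ _ M N κ s t P X T hC hM hT x hx hX hcl
    refine cir E N T (Sta M N κ P X T) x hT.ri.indN
      ((mvb E K M N κ s t P X T hC hM hT).1 x hx hcl) ?_
    rintro y ⟨hyT, hyS⟩
    by_contra hn
    have h2 : y ∈ insert x (T \ {y}) := hyS _ (Relation.ReflTransGen.single
      ⟨x, y, hyT, hx, hX, hcl, hn, rfl⟩)
    rcases h2 with h2 | h2
    · exact hx (h2 ▸ mem_image_of_mem κ hyT)
    · exact h2.2 rfl
  intro E K _ _ M N κ s t P X T hC hM hT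
  refine ⟨h1 E K M N κ s t P X T hC hM hT, ?_⟩
  intro T' hR
  induction hR with
  | refl => rfl
  | tail hR1 hmv ih =>
    rename_i T1 T2
    rw [← ih]
    have hT1 := (rch E K M N κ s t P X T T1 hC hM hT hR1).1
    obtain ⟨-, -, hback⟩ := (mvb E K M N κ s t P X T1 hC hM hT1).2 T2 hmv
    have hsta := (rch E K M N κ s t P X T1 T2 hC hM hT1
      (Relation.ReflTransGen.single hmv)).2.2.2.1
    obtain ⟨x, y, hy, hx, hX, hcl, hn, hT2⟩ := hmv
    have hxT1 : x ∉ T1 := fun h => hx (mem_image_of_mem κ h)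
    have hxS : x ∉ Sta M N κ P X T1 := by
      intro h
      exact hxT1 (h T1 Relation.ReflTransGen.refl)
    have hyS : y ∉ Sta M N κ P X T1 := by
      intro h
      have h2 := h T2 (Relation.ReflTransGen.single ⟨x, y, hy, hx, hX, hcl, hn, hT2⟩)
      rw [hT2] at h2
      rcases h2 with h2 | h2
      · exact hxT1 (h2 ▸ hy)
      · exact h2.2 rfl
    have h3 : T2 \ Sta M N κ P X T2 = insert x ((T1 \ Sta M N κ P X T1) \ {y}) := by
      rw [hsta, hT2]
      ext e
      simp only [mem_sdiff, mem_insert_iff, mem_singleton_iff]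
      constructor
      · rintro ⟨h | h, h'⟩
        · exact Or.inl h
        · exact Or.inr ⟨⟨h.1, h'⟩, h.2⟩
      · rintro (h | h)
        · exact ⟨Or.inl h, h ▸ hxS⟩
        · exact ⟨Or.inr ⟨h.1.1, h.2⟩, h.1.2⟩
    have h4 : x ∈ N.closure (T1 \ Sta M N κ P X T1) :=
      h1 E K M N κ s t P X T1 hC hM hT1 x hx hX hcl
    have h5 : insert y ((T1 \ Sta M N κ P X T1) \ {y}) = T1 \ Sta M N κ P X T1 :=
      insert_sdiff_self_of_mem ⟨hy, hyS⟩
    have h6 : x ∉ N.closure ((T1 \ Sta M N κ P X T1) \ {y}) := fun h =>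
      hn (N.closure_subset_closure (sdiff_subset_sdiff_left sdiff_subset) h)
    have h7 := Matroid.closure_insert_congr (M := N) (e := x) (f := y)
      (X := (T1 \ Sta M N κ P X T1) \ {y}) ⟨by rw [h5]; exact h4, h6⟩
    rw [Ph, Ph, h3, h7, h5]

end Pool.Agent.RCM.H70
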